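import Pool.Agent.Helper38.WY.Goals3
import Pool.Agent.Helper74.PB.XFI

set_option autoImplicit false

/-!
# Project WY (MP_fc6b1e_nt), packet WY-F_FI: the first inequality without conditions above `p`
-/

namespace Pool.Agent.Helper82.WY

open NumberField Polynomial Module IsDedekindDomain
open Pool.Agent.Helper51.RP Pool.Agent.Helper42.PP
open Pool.Agent.Helper76.PB Pool.Agent.Helper74.PB
open Pool.Agent.Helper40.RS (bel)
open Pool.Agent.Helper40.RD (bel_of_above valW)
open Pool.Agent.Helper42.RD (ordv_eq_zero_iff locPow_of_sub)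

theorem hom_pow {F A : Type} [Field F] [NumberField F] [AddCommGroup A] {f : Fˣ → A}
    (hf : Hom f) (y : Fˣ) (n : ℕ) : f (y ^ n) = n • f y := by
  induction n with
  | zero => rw [pow_zero, zero_smul, hom_one hf]
  | succ n ih => rw [pow_succ, hf, ih, succ_nsmul]

open Classical in
theorem f_fi (h0 : Pool.Agent.Helper38.WY.F_LCP) (h1 : Pool.Agent.Helper76.PB.X_HQ) (h2 : Pool.Agent.Helper76.PB.X_RKS)
    (h3 : Pool.Agent.Helper76.PB.X_H90) (h4 : Pool.Agent.Helper76.PB.X_LCF)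
    (h5 : Pool.Agent.Helper76.PB.X_SPC) : Pool.Agent.Helper38.WY.F_FI := by
  intro p _ F E _ _ _ _ _ _ hdeg hc Z hZf hab hun hpr
  -- the primes which are not split
  have hNf : {v | v ∈ Z ∧ ∃ W : HeightOneSpectrum (𝓞 E), Above W v ∧ ¬ FreeP F W}.Finite :=
    hZf.subset fun v hv => hv.1
  obtain ⟨N, hN⟩ : ∃ N : Finset (HeightOneSpectrum (𝓞 F)), ∀ v, v ∈ N ↔
      v ∈ Z ∧ ∃ W : HeightOneSpectrum (𝓞 E), Above W v ∧ ¬ FreeP F W :=
    ⟨hNf.toFinset, fun v => by
      rw [Set.Finite.mem_toFinset]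
      rfl⟩
  have hφex : ∀ v : HeightOneSpectrum (𝓞 F), ∃ φ : Fˣ → ZMod p, v ∈ N →
      Hom φ ∧ (∀ x : Fˣ, Pool.Agent.Helper42.PW.Cl p v (x : F) → φ x = 0) ∧
        (∀ y : Eˣ, φ (nrm F E y) = 0) ∧ ∃ x, φ x = 1 := by
    intro v
    by_cases hv : v ∈ N
    · obtain ⟨-, W, hW, hWf⟩ := (hN v).1 hv
      have e : algebraMap (𝓞 F) F (p : 𝓞 F) = (p : F) := map_natCast (algebraMap (𝓞 F) F) p
      have hle : v.valuation F (p : F) ≤ 1 := by
        rw [← e]
        exact v.valuation_le_one (K := F) (p : 𝓞 F)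
      rcases lt_or_eq_of_le hle with h | h
      · obtain ⟨φ, hφ⟩ := h0 p F E hdeg v W hW h hWf
        exact ⟨φ, fun _ => hφ⟩
      · obtain ⟨φ, hφ1, hφ2, hφ3⟩ := h4 p F E hdeg v W hW h hWf
        exact ⟨φ, fun _ => ⟨hφ1, fun x hx => hφ2 x (locPow_of_sub v hx.1), hφ3⟩⟩
    · exact ⟨fun _ => 0, fun h => absurd h hv⟩
  choose φ hφ using hφex
  -- surjectivity
  have hsurj : ∀ v ∈ N, ∃ x : Fˣ, φ v x = 1 ∧ ∀ w ∈ N, w ≠ v → φ w x = 0 := by
    intro v hv
    obtain ⟨x₀, hx₀⟩ := (hφ v hv).2.2.2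
    have hpF : (p : F) ≠ 0 := Nat.cast_ne_zero.2 (Fact.out : p.Prime).ne_zero
    obtain ⟨y, hy⟩ := Pool.Agent.Helper32.RDV.weakApproxUnits N
      (fun w => if w = v then x₀ else 1)
      (fun w => w.valuation F (((if w = v then x₀ else 1 : Fˣ) : F)) * w.valuation F (p : F) ^ 3)
      (fun w => mul_ne_zero ((Valuation.ne_zero_iff _).2 (Units.ne_zero _))
        (pow_ne_zero _ ((Valuation.ne_zero_iff _).2 hpF)))
    have hφy : ∀ w ∈ N, φ w y = φ w (if w = v then x₀ else 1) := by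
      intro w hw
      obtain ⟨hhom, hloc, -, -⟩ := hφ w hw
      set t : Fˣ := if w = v then x₀ else 1 with ht
      have h6 := (hy w hw).2
      have h6' : w.valuation F ((y : F) - (t : F)) < w.valuation F (t : F) := h6
      have h5' : w.valuation F ((y : F) - (t : F)) ≤
          w.valuation F (t : F) * w.valuation F (p : F) ^ 3 := (hy w hw).1
      have e : ((y * t⁻¹ : Fˣ) : F) - 1 = ((y : F) - t) / t := by
        rw [Units.val_mul, Units.val_inv_eq_inv_val]
        have := t.ne_zero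
        field_simp
      have ht0 : 0 < w.valuation F (t : F) :=
        zero_lt_iff.2 ((Valuation.ne_zero_iff _).2 t.ne_zero)
      have h7 : w.valuation F (((y * t⁻¹ : Fˣ) : F) - 1) < 1 := by
        rw [e, map_div₀]
        exact (div_lt_one₀ ht0).2 h6'
      have h7' : w.valuation F (((y * t⁻¹ : Fˣ) : F) - 1) ≤ w.valuation F (p : F) ^ 3 := by
        rw [e, map_div₀]
        exact (div_le_iff₀' ht0).2 h5'
      have h8 := hloc _ ⟨h7, h7'⟩
      have h9 := hhom (y * t⁻¹) t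
      rw [inv_mul_cancel_right, h8, zero_add] at h9
      exact h9
    refine ⟨y, ?_, ?_⟩
    · rw [hφy v hv, if_pos rfl]
      exact hx₀
    · intro w hw hne
      rw [hφy w hw, if_neg hne]
      exact hom_one (hφ w hw).1
  -- the relation
  obtain ⟨m, hm0, hm⟩ : ∃ m : N → ZMod p, m ≠ 0 ∧
      ∀ D : Finset (HeightOneSpectrum (𝓞 F)), (∀ v ∈ D, v ∈ SplZ E Z) →
        ∀ x ∈ (Z ∪ (D : Set (HeightOneSpectrum (𝓞 F)))).unit F,
          ∑ v : N, m v * φ v.1 x = 0 := by
    by_contra hcon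
    push Not at hcon
    have hDex : ∀ m : N → ZMod p, ∃ D : Finset (HeightOneSpectrum (𝓞 F)),
        (∀ v ∈ D, v ∈ SplZ E Z) ∧ (m ≠ 0 →
          ∃ x ∈ (Z ∪ (D : Set (HeightOneSpectrum (𝓞 F)))).unit F,
            ∑ v : N, m v * φ v.1 x ≠ 0) := by
      intro m
      by_cases hm : m = 0
      · exact ⟨∅, fun v hv => absurd hv (Finset.notMem_empty v), fun h => absurd hm h⟩
      · obtain ⟨D, hD, hx⟩ := hcon m hm
        exact ⟨D, hD, fun _ => hx⟩
    choose Df hDf hDx using hDex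
    obtain ⟨m, hm0, hm⟩ := exists_rel h1 h2 h3 h5 hdeg hc Z hZf hun hpr N hN φ
      (fun v hv => (hφ v hv).1) (fun v hv => (hφ v hv).2.2.1)
      ((Finset.univ : Finset (N → ZMod p)).biUnion Df) (by
        intro v hv
        rw [Finset.mem_biUnion] at hv
        obtain ⟨m', -, hv'⟩ := hv
        exact hDf m' v hv')
    obtain ⟨x, hx, hne⟩ := hDx m hm0
    apply hne
    apply hm x
    refine unit_mono (Set.union_subset_union_right Z ?_) hx
    intro v hv
    rw [Finset.mem_coe] at hv ⊢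
    rw [Finset.mem_biUnion]
    exact ⟨m, Finset.mem_univ _, hv⟩
  refine ⟨fun x => ∑ v : N, m v * φ v.1 x, ⟨?_, ?_, ?_⟩, ?_, ?_, ?_⟩
  · intro x y
    rw [← Finset.sum_add_distrib]
    refine Finset.sum_congr rfl fun v _ => ?_
    rw [(hφ v.1 v.2).1 x y, mul_add]
  · rintro x ⟨y, hy⟩
    refine Finset.sum_eq_zero fun v _ => ?_
    have hvZ : v.1 ∈ Z := ((hN v.1).1 v.2).1
    obtain ⟨hhom, hloc, -, -⟩ := hφ v.1 v.2
    have h6 := hloc (x * y ^ p) (by
      have := hy v.1 hvZ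
      rw [Units.val_mul, Units.val_pow_eq_pow_val]
      exact this)
    rw [hhom, hom_pow hhom, nsmul_eq_mul, CharP.cast_eq_zero, zero_mul, add_zero] at h6
    rw [h6, mul_zero]
  · intro x hx
    exact hm ∅ (fun v hv => absurd hv (Finset.notMem_empty v)) x
      (unit_mono Set.subset_union_left hx)
  · obtain ⟨v, hv⟩ := Function.ne_iff.1 hm0
    obtain ⟨x, hx1, hx0⟩ := hsurj v.1 v.2
    refine ⟨x, ?_⟩
    show ∑ v : N, m v * φ v.1 x ≠ 0
    rw [Finset.sum_eq_single v]
    · rw [hx1, mul_one]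
      exact hv
    · intro w _ hw
      rw [hx0 w.1 w.2 (fun h => hw (Subtype.ext h)), mul_zero]
    · intro h
      exact absurd (Finset.mem_univ v) h
  · intro y
    refine Finset.sum_eq_zero fun v _ => ?_
    rw [(hφ v.1 v.2).2.2.1 y, mul_zero]
  · intro x hx
    have hDfin : {v : HeightOneSpectrum (𝓞 F) | v ∉ Z ∧ ordv v (x : F) ≠ 0}.Finite :=
      (finite_ordv (x : F) x.ne_zero).subset fun v hv => hv.2
    refine hm hDfin.toFinset ?_ x ?_
    · intro v hv
      rw [Set.Finite.mem_toFinset] at hv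
      exact hx v hv.1 hv.2
    · intro v hv
      have h6 : ordv v (x : F) = 0 := by
        by_contra h7
        apply hv
        right
        rw [Set.Finite.coe_toFinset]
        exact ⟨fun h8 => hv (Or.inl h8), h7⟩
      exact (ordv_eq_zero_iff v x.ne_zero).1 h6

end Pool.Agent.Helper82.WY
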