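import Pool.Agent.Helper82.WY.OCO1
import Pool.Agent.Helper13.RL.GOO2
import Pool.Agent.Helper13.RL.GOO3
import Pool.Agent.Helper38.RD.Asm

/-!
# Project WY (MP_fc6b1e_nt), packet O_CO: the core, `χ₀ ≡ ω`
-/

set_option autoImplicit false

namespace Pool.Agent.Helper82.WY

open NumberField Polynomial Module IsDedekindDomain TensorProduct Pool.Agent.Helper51.SigLeo
open Pool.Agent.Helper51.RP Pool.Agent.Helper42.PW Pool.Agent.Helper38.WY
open Pool.Agent.Helper42.RD (TSet)
open Pool.Agent.Helper79.RD (eq_on_sup mem_of_fixed exists_ext map_sup_mem map_mem_normal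
  finrank_sup_coprime pow_fix fix_pow)
open Pool.Agent.Helper13.RL (res_one_iff finrank_rel normal_of_stable exists_gK resL resL_pow
  bc_inj ups ups_inj ups_equiv log_ups)

theorem o_co (h1 : O_P1) (h2 : O_DSC) : O_CO := by
  intro p hpf hp2 K _ _ ιinf ιp Lg S hcl M _ _ χ₀ hχ₀ hcopM δ i hδ hi n J F M' _ _ _ _ _ _ hMM'
    hcyc hJF hJd hFd hM' ε a hε hε₀ hOm ha s hs hsM' hgen hSel Hf _ _ χ η hχ hη hchar
  have hp := hpf.out
  have hfM : FiniteDimensional K M := FiniteDimensional.right ℚ K M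
  have hM0 : 0 < finrank K M := finrank_pos
  have hF0 : 0 < finrank K F := by rw [hFd]; exact pow_pos hp.pos _
  have hfF : FiniteDimensional K F := FiniteDimensional.of_finrank_pos hF0
  have hJ0 : 0 < finrank K J := by rw [hJd]; exact pow_pos hp.pos n
  have hfJ : FiniteDimensional K J := FiniteDimensional.of_finrank_pos hJ0
  have hfM' : FiniteDimensional K M' := FiniteDimensional.right ℚ K M'
  have hMg : IsGalois K M := inferInstance
  have hJg : IsGalois K J := inferInstance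
  have hFg : IsGalois K F := inferInstance
  have hnM : Normal K M := inferInstance
  have hnJ : Normal K J := inferInstance
  have hnF : Normal K F := inferInstance
  have hnΩ : Normal K (AlgebraicClosure K) := inferInstance
  have hgΩ : IsGalois K (AlgebraicClosure K) := inferInstance
  have hcopMF : (finrank K M).Coprime (finrank K F) := by
    rw [hFd]; exact Nat.Coprime.pow_right _ hcopM
  -- inclusions
  have hMM'le : M ≤ M' := by rw [hM']; exact le_sup_left
  have hJM'le : J ≤ M' := by rw [hM']; exact le_sup_right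
  -- the fields
  obtain ⟨H, hH⟩ : ∃ F' : IntermediateField K (AlgebraicClosure K), F' = M ⊔ F := ⟨_, rfl⟩
  have hdM' : finrank K M' = finrank K M * p ^ n := by
    rw [hM', finrank_sup_coprime hM0 hJ0 (by rw [hJd]; exact Nat.Coprime.pow_right _ hcopM), hJd]
  have hdH : finrank K H = finrank K M * p ^ (n + 1) := by
    rw [hH, finrank_sup_coprime hM0 hF0 hcopMF, hFd]
  have hMH : M ≤ H := by rw [hH]; exact le_sup_left
  have hFH : F ≤ H := by rw [hH]; exact le_sup_right
  have hJH : J ≤ H := hJF.trans hFH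
  have hM'H : M' ≤ H := by rw [hM']; exact sup_le hMH hJH
  have hfH : FiniteDimensional K H := FiniteDimensional.of_finrank_pos (by
    rw [hdH]; exact Nat.mul_pos hM0 (pow_pos hp.pos _))
  have hnfH : NumberField H := NumberField.of_module_finite K H
  have hgH : IsGalois K H := by rw [hH]; infer_instance
  have nH : Normal K H := inferInstance
  have hgM' : IsGalois K M' := by rw [hM']; infer_instance
  have nM' : Normal K M' := inferInstance
  have hsH : s ∈ H := mem_of_fixed fun g hg =>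
    hgen g (fun y hy => hg y (hFH hy)) (fun y hy => hg y (hM'H hy))
  -- algebras
  let _ : Algebra J F := (IntermediateField.inclusion hJF).toRingHom.toAlgebra
  let _ : Algebra J M' := (IntermediateField.inclusion hJM'le).toRingHom.toAlgebra
  let _ : Algebra M' H := (IntermediateField.inclusion hM'H).toRingHom.toAlgebra
  let _ : Algebra J H := (IntermediateField.inclusion hJH).toRingHom.toAlgebra
  have cJF : ∀ x : J, ((algebraMap J F x : F) : AlgebraicClosure K) = x := fun _ => rfl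
  have cJM' : ∀ x : J, ((algebraMap J M' x : M') : AlgebraicClosure K) = x := fun _ => rfl
  have cM'H : ∀ x : M', ((algebraMap M' H x : H) : AlgebraicClosure K) = x := fun _ => rfl
  have cJH : ∀ x : J, ((algebraMap J H x : H) : AlgebraicClosure K) = x := fun _ => rfl
  have tKJF : IsScalarTower K J F := IsScalarTower.of_algebraMap_eq fun x => rfl
  have tKJM' : IsScalarTower K J M' := IsScalarTower.of_algebraMap_eq fun x => rfl
  have tKM'H : IsScalarTower K M' H := IsScalarTower.of_algebraMap_eq fun x => rfl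
  have tKJH : IsScalarTower K J H := IsScalarTower.of_algebraMap_eq fun x => rfl
  have tJM'H : IsScalarTower J M' H := IsScalarTower.of_algebraMap_eq fun x => rfl
  have tKMM' : IsScalarTower K M M' := IsScalarTower.of_algebraMap_eq fun x =>
    Subtype.ext (hMM' (algebraMap K M x)).symm
  -- degrees
  have hdJM' : finrank J M' = finrank K M := finrank_rel hJd (pow_pos hp.pos _) hdM' (by
    rw [mul_comm])
  have hdM'H : finrank M' H = p := finrank_rel hdM' (Nat.mul_pos hM0 (pow_pos hp.pos _)) hdH (by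
    rw [pow_succ, mul_assoc])
  have hdJF : finrank J F = p := finrank_rel hJd (pow_pos hp.pos _) hFd (by rw [pow_succ])
  -- the root of unity
  obtain ⟨ε₀, hε₀1, hε₀2⟩ := hε₀
  have hεc : ((ε₀ : M) : AlgebraicClosure K) = ((ε : M') : AlgebraicClosure K) := by
    rw [← hε₀1, hMM']
  have hεM : ((ε : M') : AlgebraicClosure K) ∈ M := by rw [← hεc]; exact ε₀.2
  -- the Kummer automorphism
  have haM' : ((a : M') : AlgebraicClosure K) ≠ 0 := fun h => ha (Subtype.ext h)
  have hεΩ : IsPrimitiveRoot ((ε : M') : AlgebraicClosure K) p :=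
    hε.map_of_injective (f := algebraMap M' (AlgebraicClosure K)) (RingHom.injective _)
  obtain ⟨gK, hgM', hgs⟩ := exists_gK (K := K) hp hεΩ ε.2 (a : M').2 haM' hs hsM'
  have hgJ : ∀ x ∈ J, gK x = x := fun x hx => hgM' x (hJM'le hx)
  have hgM : ∀ x ∈ M, gK x = x := fun x hx => hgM' x (hMM'le hx)
  have stF : ∀ (g : AlgebraicClosure K ≃ₐ[K] AlgebraicClosure K), ∀ x ∈ F, g x ∈ F :=
    fun g x hx => map_mem_normal g hx
  have stM' : ∀ (g : AlgebraicClosure K ≃ₐ[K] AlgebraicClosure K), ∀ x ∈ M', g x ∈ M' :=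
    fun g x hx => map_mem_normal g hx
  have stH : ∀ (g : AlgebraicClosure K ≃ₐ[K] AlgebraicClosure K), ∀ x ∈ H, g x ∈ H :=
    fun g x hx => map_mem_normal g hx
  -- the group of `F/J`
  have hgalJF : IsGalois J F := IsGalois.tower_top_of_isGalois K J F
  have hfJF : FiniteDimensional J F := FiniteDimensional.right K J F
  have hcardJF : Nat.card (F ≃ₐ[J] F) = p := by rw [IsGalois.card_aut_eq_finrank, hdJF]
  obtain ⟨γF, hγF⟩ : ∃ γF : F ≃ₐ[J] F, γF = resL cJF gK (stF gK) (stF gK.symm) hgJ := ⟨_, rfl⟩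
  have pγF : ∀ (i : ℕ) (x : F), (((γF ^ i) x : F) : AlgebraicClosure K) = (gK ^ i) x :=
    fun i x => by rw [hγF, resL_pow]
  have hs0 : s ≠ 0 := by
    intro h0
    rw [h0, zero_pow hp.ne_zero] at hs
    exact haM' hs.symm
  have hgF1 : ¬ ∀ y ∈ F, gK y = y := by
    intro e1
    have e3 := hgen gK e1 hgM'
    rw [hgs] at e3
    have e4 : ((ε : M') : AlgebraicClosure K) = 1 := by
      have : (((ε : M') : AlgebraicClosure K) - 1) * s = 0 := by rw [sub_mul, e3, one_mul, sub_self]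
      rcases mul_eq_zero.1 this with h' | h'
      · exact sub_eq_zero.1 h'
      · exact absurd h' hs0
    exact hεΩ.ne_one hp.one_lt e4
  have hγF1 : γF ≠ 1 := by
    intro h
    apply hgF1
    intro y hy
    have e1 := pγF 1 ⟨y, hy⟩
    rw [pow_one, pow_one, h] at e1
    exact e1.symm
  -- every automorphism trivial on `J` is a power of `gK` on `F`
  have key : ∀ g : AlgebraicClosure K ≃ₐ[K] AlgebraicClosure K, (∀ x ∈ J, g x = x) →
      ∃ i : ℕ, ∀ x ∈ F, g x = (gK ^ i) x := by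
    intro g hg
    obtain ⟨i, hi⟩ := (mem_powers_of_prime_card hcardJF hγF1 :
      resL cJF g (stF g) (stF g.symm) hg ∈ Submonoid.powers γF)
    refine ⟨i, fun x hx => ?_⟩
    have e1 := pγF i ⟨x, hx⟩
    have e2 : (γF ^ i) ⟨x, hx⟩ = resL cJF g (stF g) (stF g.symm) hg ⟨x, hx⟩ :=
      AlgEquiv.congr_fun hi _
    rw [e2] at e1
    exact e1
  have hgFp : ∀ y ∈ F, (gK ^ p) y = y := by
    intro y hy
    have e1 := pγF p ⟨y, hy⟩
    have e2 : γF ^ p = 1 := by rw [← hcardJF]; exact pow_card_eq_one'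
    rw [e2] at e1
    exact e1.symm
  -- the automorphisms of `Ω`
  obtain ⟨d, hdM, hdF⟩ := exists_ext hM0 hF0 hMg hFg hcopMF δ
  have hdJ : ∀ x ∈ J, d x = x := fun x hx => hdF x (hJF hx)
  have hcardM : Nat.card (M ≃ₐ[K] M) = finrank K M := IsGalois.card_aut_eq_finrank K M
  have hcardF : Nat.card (F ≃ₐ[K] F) = p ^ (n + 1) := by
    rw [IsGalois.card_aut_eq_finrank, hFd]
  obtain ⟨sF, hsF1, hsF2⟩ := cyc (n := n) hp hcardF (g := AlgEquiv.restrictNormalHom F gK)
    (by
      rw [← map_pow]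
      exact res_one_iff.2 hgFp)
    (fun h => hgF1 (res_one_iff.1 h))
  obtain ⟨sK, hsKF, hsKM⟩ := exists_ext hF0 hM0 hFg hMg hcopMF.symm sF
  have hresF : AlgEquiv.restrictNormalHom F sK = sF := by
    ext x
    rw [AlgEquiv.restrictNormalHom_apply]
    exact hsKF x
  have hsKp : ∀ x ∈ F, (sK ^ p ^ n) x = gK x := by
    intro x hx
    have e1 := AlgEquiv.restrictNormalHom_apply F (sK ^ p ^ n) ⟨x, hx⟩
    rw [map_pow, hresF, hsF1] at e1
    have e2 := AlgEquiv.restrictNormalHom_apply F gK ⟨x, hx⟩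
    exact e1.symm.trans e2
  have hsKpH : ∀ x ∈ H, (sK ^ p ^ n) x = gK x := by
    rw [hH]
    exact eq_on_sup (fun x hx => by rw [fix_pow (hsKM x hx), hgM x hx]) hsKp
  -- the automorphisms of `H`
  obtain ⟨γ, hγ⟩ : ∃ γ : H ≃ₐ[J] H, γ = resL cJH gK (stH gK) (stH gK.symm) hgJ := ⟨_, rfl⟩
  obtain ⟨γ₁, hγ₁⟩ : ∃ γ₁ : H ≃ₐ[M'] H, γ₁ = resL cM'H gK (stH gK) (stH gK.symm) hgM' := ⟨_, rfl⟩
  obtain ⟨δ', hδ'⟩ : ∃ δ' : H ≃ₐ[J] H, δ' = resL cJH d (stH d) (stH d.symm) hdJ := ⟨_, rfl⟩
  obtain ⟨δJ, hδJ⟩ : ∃ δJ : M' ≃ₐ[J] M', δJ = resL cJM' d (stM' d) (stM' d.symm) hdJ := ⟨_, rfl⟩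
  obtain ⟨σ', hσ'⟩ : ∃ σ' : M' ≃ₐ[M] M', σ' = resL hMM' sK (stM' sK) (stM' sK.symm) hsKM :=
    ⟨_, rfl⟩
  obtain ⟨σ, hσ⟩ : ∃ σ : H ≃ₐ[K] H, σ = AlgEquiv.restrictNormalHom H sK := ⟨_, rfl⟩
  have cγ : ∀ x : H, ((γ x : H) : AlgebraicClosure K) = gK x := fun x => by rw [hγ]; rfl
  have cγ₁ : ∀ x : H, ((γ₁ x : H) : AlgebraicClosure K) = gK x := fun x => by rw [hγ₁]; rfl
  have cδ' : ∀ x : H, ((δ' x : H) : AlgebraicClosure K) = d x := fun x => by rw [hδ']; rfl
  have cδJ : ∀ x : M', ((δJ x : M') : AlgebraicClosure K) = d x := fun x => by rw [hδJ]; rfl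
  have cσ' : ∀ x : M', ((σ' x : M') : AlgebraicClosure K) = sK x := fun x => by rw [hσ']; rfl
  have cσ : ∀ x : H, ((σ x : H) : AlgebraicClosure K) = sK x := fun x => by
    rw [hσ, AlgEquiv.restrictNormalHom_apply]
  have pγ : ∀ (i : ℕ) (x : H), (((γ ^ i) x : H) : AlgebraicClosure K) = (gK ^ i) x :=
    fun i x => by rw [hγ, resL_pow]
  have pδ' : ∀ (i : ℕ) (x : H), (((δ' ^ i) x : H) : AlgebraicClosure K) = (d ^ i) x :=
    fun i x => by rw [hδ', resL_pow]
  have pδJ : ∀ (i : ℕ) (x : M'), (((δJ ^ i) x : M') : AlgebraicClosure K) = (d ^ i) x :=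
    fun i x => by rw [hδJ, resL_pow]
  have pσ' : ∀ (i : ℕ) (x : M'), (((σ' ^ i) x : M') : AlgebraicClosure K) = (sK ^ i) x :=
    fun i x => by rw [hσ', resL_pow]
  have pσ : ∀ (i : ℕ) (x : H), (((σ ^ i) x : H) : AlgebraicClosure K) = (sK ^ i) x :=
    fun i x => by rw [hσ, ← map_pow, AlgEquiv.restrictNormalHom_apply]
  have pd : ∀ (i : ℕ) (x : M), (d ^ i) (x : AlgebraicClosure K) = ((δ ^ i) x : M) := by
    intro i
    induction i with
    | zero => intro x; rfl
    | succ i ih =>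
      intro x
      rw [pow_succ', pow_succ', AlgEquiv.mul_apply, AlgEquiv.mul_apply, ih, hdM]
  have dm : ∀ x ∈ H, (d ^ finrank K M) x = x := by
    rw [hH]
    refine eq_on_sup (g := 1) (fun x hx => ?_) (fun x hx => fix_pow (hdF x hx) _)
    have e2 := pd (finrank K M) ⟨x, hx⟩
    rw [← hδ, pow_orderOf_eq_one] at e2
    rw [← hδ]
    exact e2
  have hδ'm : δ' ^ finrank K M = 1 := by
    ext y
    rw [pδ', dm y y.2]
    rfl
  have hδJm : δJ ^ finrank K M = 1 := by
    ext y
    rw [pδJ, dm y (hM'H y.2)]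
    rfl
  have hδm : δ ^ finrank K M = 1 := by rw [← hδ]; exact pow_orderOf_eq_one δ
  have hδ'o : orderOf δ' = finrank K M := by
    apply Nat.dvd_antisymm (orderOf_dvd_of_pow_eq_one hδ'm)
    rw [← hδ]
    apply orderOf_dvd_of_pow_eq_one
    ext x
    rw [← pd]
    have e1 := pδ' (orderOf δ') ⟨x, hMH x.2⟩
    rw [pow_orderOf_eq_one] at e1
    exact e1.symm
  have hδJo : orderOf δJ = finrank K M := by
    apply Nat.dvd_antisymm (orderOf_dvd_of_pow_eq_one hδJm)
    rw [← hδ]
    apply orderOf_dvd_of_pow_eq_one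
    ext x
    rw [← pd]
    have e1 := pδJ (orderOf δJ) ⟨x, hMM'le x.2⟩
    rw [pow_orderOf_eq_one] at e1
    exact e1.symm
  have hγp : γ ^ p = 1 := by
    ext y
    rw [pγ]
    have e1 : ∀ x ∈ H, (gK ^ p) x = (1 : AlgebraicClosure K ≃ₐ[K] AlgebraicClosure K) x := by
      rw [hH]
      exact eq_on_sup (fun x hx => fix_pow (hgM x hx) p) hgFp
    exact e1 y y.2
  have hγ1 : γ ≠ 1 := by
    intro h
    apply hgF1
    intro y hy
    have e3 := cγ ⟨y, hFH hy⟩
    rw [h] at e3
    exact e3.symm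
  have hγo : orderOf γ = p := orderOf_eq_prime hγp hγ1
  have comm_gen : ∀ g : AlgebraicClosure K ≃ₐ[K] AlgebraicClosure K, (∀ x ∈ M, g x = x) →
      ∀ x ∈ H, g (d x) = d (g x) := by
    intro g hg
    have e1 : ∀ x ∈ H, (g * d) x = (d * g) x := by
      rw [hH]
      refine eq_on_sup (fun x hx => ?_) (fun x hx => ?_)
      · change g (d x) = d (g x)
        rw [hg x hx, hg _ (map_mem_normal d hx)]
      · change g (d x) = d (g x)
        rw [hdF x hx, hdF _ (stF g x hx)]
    exact e1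
  have hcomm : ∀ y : H, γ (δ' y) = δ' (γ y) := by
    intro y
    apply Subtype.ext
    rw [cγ, cδ', cδ', cγ]
    exact comm_gen gK hgM y y.2
  have hcommσ : ∀ y : H, σ (δ' y) = δ' (σ y) := by
    intro y
    apply Subtype.ext
    rw [cσ, cδ', cδ', cσ]
    exact comm_gen sK hsKM y y.2
  have hσγ : ∀ y : H, (σ ^ p ^ n) y = γ y := by
    intro y
    apply Subtype.ext
    rw [pσ, cγ]
    exact hsKpH y y.2
  have hγM' : ∀ x : M', γ (algebraMap M' H x) = algebraMap M' H x := fun x => by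
    apply Subtype.ext
    rw [cγ, cM'H]
    exact hgM' x x.2
  have hδ'M' : ∀ x : M', δ' (algebraMap M' H x) = algebraMap M' H (δJ x) := fun x => by
    apply Subtype.ext
    rw [cδ', cM'H, cM'H, cδJ]
  have hδJM : ∀ x : M, δJ (algebraMap M M' x) = algebraMap M M' (δ x) := fun x => by
    apply Subtype.ext
    rw [cδJ, hMM', hMM', hdM]
  have hσM' : ∀ x : M', σ (algebraMap M' H x) = algebraMap M' H (σ' x) := fun x => by
    apply Subtype.ext
    rw [cσ, cM'H, cM'H, cσ']
  -- the data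
  have hclJ : PlaceClosed (above (TSet ιinf ιp S) : Set (J →+* ℂ_[p])) := by
    intro σ τ hστ
    exact hcl _ _ fun x => hστ (algebraMap K J x)
  have hdata : HDataW (p := p) J M' H M' H (finrank K M) δJ γ δ' γ₁
      (above (TSet ιinf ιp S) : Set (J →+* ℂ_[p])) ε a ⟨s, hsH⟩ :=
    { order := hδJo
      deg := hdJM'
      degH := hdM'H
      degH₁ := hdM'H
      compat := fun x => rfl
      cop := by rw [finrank_self]; exact Nat.coprime_one_left p
      gal := inferInstance
      prim := hε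
      ne := ha
      pow := Subtype.ext hs
      γs := by
        apply Subtype.ext
        rw [cγ₁]
        exact hgs
      ext := fun y => by
        apply Subtype.ext
        rw [cγ₁]
        exact (cγ y).symm
      γM := hγM'
      γo := hγo
      δM := hδ'M'
      δo := hδ'o
      comm := hcomm
      closed := hclJ }
  -- the characters
  have hMr1 : ∀ g : AlgebraicClosure K ≃ₐ[K] AlgebraicClosure K, (∀ x ∈ M, g x = x) →
      χ₀ (AlgEquiv.restrictNormalHom M g) = 1 := fun g hg => by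
    rw [res_one_iff.2 hg, map_one]
  have hFr1 : ∀ g : AlgebraicClosure K ≃ₐ[K] AlgebraicClosure K, (∀ x ∈ F, g x = x) →
      η (AlgEquiv.restrictNormalHom F g) = 1 := fun g hg => by
    rw [res_one_iff.2 hg, map_one]
  have hHf : Hf ≤ H := by
    intro y hy
    apply mem_of_fixed
    intro g hg
    have e1 : χ (AlgEquiv.restrictNormalHom Hf g) = 1 := by
      rw [hchar g, hMr1 g fun x hx => hg x (hMH hx), hFr1 g fun x hx => hg x (hFH hx), one_mul]
    have e2 : AlgEquiv.restrictNormalHom Hf g = 1 := hχ (by rw [e1, map_one])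
    exact res_one_iff.1 e2 y hy
  have hχσ : χ (AlgEquiv.restrictNormalHom Hf sK) = η sF := by
    rw [hchar sK, hMr1 sK hsKM, one_mul, hresF]
  have hχδ : χ (AlgEquiv.restrictNormalHom Hf d) = χ₀ δ := by
    have e1 : AlgEquiv.restrictNormalHom M d = δ := by
      ext x
      rw [AlgEquiv.restrictNormalHom_apply]
      exact hdM x
    rw [hchar d, hFr1 d hdF, e1, mul_one]
  have hηg : η (AlgEquiv.restrictNormalHom F gK) ≠ 1 := by
    intro h
    obtain ⟨g, g1, g2⟩ := hη
    apply g2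
    have e2 : ∀ x : F, (g.liftNormal (AlgebraicClosure K)) (x : AlgebraicClosure K) =
        ((g x : F) : AlgebraicClosure K) := fun x =>
      g.liftNormal_commutes (AlgebraicClosure K) x
    obtain ⟨i, hi⟩ := key (g.liftNormal (AlgebraicClosure K)) (fun x hx => by
      have e3 := e2 ⟨x, hJF hx⟩
      rw [g1 ⟨x, hJF hx⟩ hx] at e3
      exact e3)
    have e4 : g = AlgEquiv.restrictNormalHom F (gK ^ i) := by
      ext x
      rw [AlgEquiv.restrictNormalHom_apply, ← hi x x.2, e2]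
    rw [e4, map_pow, map_pow, h, one_pow]
  have hηp : IsPrimitiveRoot ((η sF : ℂ_[p]ˣ) : ℂ_[p]) (p ^ (n + 1)) := by
    have e1 : orderOf (η sF) = p ^ (n + 1) := by
      apply orderOf_eq_prime_pow
      · rw [← map_pow, hsF1]
        exact hηg
      · rw [← map_pow, ← hsF2, pow_orderOf_eq_one, map_one]
    have e2 : orderOf ((η sF : ℂ_[p]ˣ) : ℂ_[p]) = p ^ (n + 1) := by
      rw [orderOf_units, e1]
    have e3 := IsPrimitiveRoot.orderOf ((η sF : ℂ_[p]ˣ) : ℂ_[p])
    rwa [e2] at e3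
  -- the Teichmueller representative
  have hχm : ((χ₀ δ : ℂ_[p]ˣ) : ℂ_[p]) ^ finrank K M = 1 := by
    rw [← Units.val_pow_eq_pow_val, ← map_pow, hδm, map_one, Units.val_one]
  obtain ⟨him, ζ, hζm, hζi, hζχ⟩ := teich hM0 hcopM hχm hi
  have hδε : δJ ε = ε ^ i := by
    rw [← hε₀1, hδJM, hε₀2, map_pow]
  -- the Kummer generator
  have hδa : ∃ d' : M', δJ a = a ^ i * d' ^ p := by
    have e1 := hOm (δJ.restrictScalars K)
    exact om_exp (τ := (δJ : M' →+* M')) hp hε ha hδε e1
  have hσ'ε : σ' ε = ε := by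
    apply Subtype.ext
    rw [cσ']
    exact hsKM _ hεM
  have hσ'a : ∃ c : M', σ' a = a ^ 1 * c ^ p := by
    have e1 := hOm (σ'.restrictScalars K)
    exact om_exp (τ := (σ' : M' →+* M')) hp hε ha (i := 1) (by rw [pow_one]; exact hσ'ε) e1
  have hca : ∃ c : M', σ' a = a * c ^ p ∧
      (0 < n → ∏ l ∈ Finset.range (p ^ n), (σ' ^ l) c ≠ 1) := by
    obtain ⟨c, hc⟩ := hσ'a
    rw [pow_one] at hc
    refine ⟨c, hc, fun hn hprod => ?_⟩
    have e1 : (sK s) ^ p = (s * (c : AlgebraicClosure K)) ^ p := by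
      rw [← map_pow, hs, mul_pow, hs, ← cσ', hc]
      rfl
    have hc0 : c ≠ 0 := by
      intro h0
      rw [h0, zero_pow hp.ne_zero, mul_zero] at hc
      exact ha ((map_eq_zero_iff σ' σ'.injective).1 hc)
    have hc0' : (c : AlgebraicClosure K) ≠ 0 := fun h => hc0 (Subtype.ext h)
    have hsc0 : s * (c : AlgebraicClosure K) ≠ 0 := mul_ne_zero hs0 hc0'
    obtain ⟨l, -, hl⟩ := hεΩ.eq_pow_of_pow_eq_one (ξ := sK s / (s * (c : AlgebraicClosure K)))
      (by rw [div_pow, e1, div_self (pow_ne_zero _ hsc0)])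
    have e2 : sK s = ((ε : M') : AlgebraicClosure K) ^ l * (s * (c : AlgebraicClosure K)) := by
      rw [hl, div_mul_cancel₀ _ hsc0]
    have e3 := pow_s (hsKM _ hεM) e2 (p ^ n)
    have e4 : ((ε : M') : AlgebraicClosure K) ^ (l * p ^ n) = 1 := by
      obtain ⟨n', rfl⟩ : ∃ n', n = n' + 1 := ⟨n - 1, by omega⟩
      rw [pow_succ, mul_comm (p ^ n') p, mul_left_comm, pow_mul, hεΩ.pow_eq_one, one_pow]
    have e5 : ∏ j ∈ Finset.range (p ^ n), (sK ^ j) (c : AlgebraicClosure K) = 1 := by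
      have e6 := congrArg (algebraMap M' (AlgebraicClosure K)) hprod
      rw [map_prod, map_one] at e6
      rw [← e6]
      refine Finset.prod_congr rfl fun j _ => ?_
      exact (pσ' j c).symm
    rw [e4, e5, one_mul, mul_one, hsKpH s hsH, hgs] at e3
    exact hεΩ.ne_one hp.one_lt (mul_right_cancel₀ hs0 (e3.trans (one_mul s).symm))
  -- the group of `M'/M`
  have hresJ : ∀ g : AlgebraicClosure K ≃ₐ[K] AlgebraicClosure K,
      ∃ k : ℕ, ∀ x ∈ F, g x = (sK ^ k) x := by
    intro g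
    have e1 : Subgroup.zpowers sF = ⊤ := Subgroup.eq_top_of_card_eq _ (by
      rw [Nat.card_zpowers, hsF2, hcardF])
    have e2 : AlgEquiv.restrictNormalHom F g ∈ Subgroup.zpowers sF := by
      rw [e1]; exact Subgroup.mem_top _
    obtain ⟨k, hk⟩ := (mem_powers_iff_mem_zpowers.2 e2)
    refine ⟨k, fun x hx => ?_⟩
    have e3 := AlgEquiv.restrictNormalHom_apply F g ⟨x, hx⟩
    have e4 := AlgEquiv.restrictNormalHom_apply F (sK ^ k) ⟨x, hx⟩
    have hk' : sF ^ k = AlgEquiv.restrictNormalHom F g := hk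
    rw [map_pow, hresF, hk'] at e4
    exact e3.symm.trans e4
  have hfix : ∀ y : M', σ' y = y → ∃ y₀ : M, y = algebraMap M M' y₀ := by
    intro y hy
    have e0 : sK (y : AlgebraicClosure K) = y := by rw [← cσ', hy]
    have e1 : (y : AlgebraicClosure K) ∈ M := by
      apply mem_of_fixed
      intro g hg
      obtain ⟨k, hk⟩ := hresJ g
      have e2 : ∀ x ∈ M', g x = (sK ^ k) x := by
        rw [hM']
        exact eq_on_sup (fun x hx => by rw [hg x hx, fix_pow (hsKM x hx)])
          (fun x hx => hk x (hJF hx))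
      rw [e2 y y.2, fix_pow e0]
    refine ⟨⟨y, e1⟩, Subtype.ext ?_⟩
    rw [hMM']
  have hσ'o : orderOf σ' = p ^ n := by
    have hpn : σ' ^ p ^ n = 1 := by
      ext y
      rw [pσ', hsKpH y (hM'H y.2), hgM' y y.2]
      rfl
    apply Nat.dvd_antisymm (orderOf_dvd_of_pow_eq_one hpn)
    -- the restriction to `J`
    have hcardJ : Nat.card (J ≃ₐ[K] J) = p ^ n := by
      rw [IsGalois.card_aut_eq_finrank, hJd]
    have hgenJ : Subgroup.zpowers (AlgEquiv.restrictNormalHom J sK) = ⊤ := by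
      rw [Subgroup.eq_top_iff']
      intro f
      have e2 : ∀ x : J, (f.liftNormal (AlgebraicClosure K)) (x : AlgebraicClosure K) =
          ((f x : J) : AlgebraicClosure K) := fun x =>
        f.liftNormal_commutes (AlgebraicClosure K) x
      obtain ⟨k, hk⟩ := hresJ (f.liftNormal (AlgebraicClosure K))
      refine ⟨k, ?_⟩
      show AlgEquiv.restrictNormalHom J sK ^ (k : ℤ) = f
      rw [zpow_natCast, ← map_pow]
      ext x
      rw [AlgEquiv.restrictNormalHom_apply, ← hk x (hJF x.2), e2]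
    have hoJ : orderOf (AlgEquiv.restrictNormalHom J sK) = p ^ n := by
      rw [← Nat.card_zpowers, hgenJ, ← hcardJ]
      exact Nat.card_congr Subgroup.topEquiv.toEquiv
    rw [← hoJ]
    apply orderOf_dvd_of_pow_eq_one
    rw [← map_pow]
    apply res_one_iff.2
    intro x hx
    have e3 := pσ' (orderOf σ') ⟨x, hJM'le hx⟩
    rw [pow_orderOf_eq_one] at e3
    exact e3.symm
  -- the conclusion
  obtain ⟨ι, hι⟩ : ∃ ι : Hf →+* H, ∀ x : Hf, ((ι x : H) : AlgebraicClosure K) = x :=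
    ⟨(IntermediateField.inclusion hHf).toRingHom, fun x => rfl⟩
  have hnfHf : NumberField Hf := NumberField.of_module_finite K Hf
  intro x hx
  apply bc_inj (ups ι) (ups_inj ι)
  rw [map_zero]
  by_contra hz
  obtain ⟨x₁, c₁, hx1, hx2, hc1, hx3⟩ := h1 p hp2 Lg K J M' H (finrank K M) n i δJ γ δ' γ₁ σ
    (TSet ιinf ιp S) ε a ⟨s, hsH⟩ ζ hM0 hcopM hζm hζi hδε hdata hσγ hcommσ _ hηp _ hz (by
      rw [ups_equiv ι (AlgEquiv.restrictNormalHom Hf sK) σ (fun x => by
        apply Subtype.ext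
        rw [cσ, hι, hι, AlgEquiv.restrictNormalHom_apply]),
        Pool.Agent.Helper50.RS.eig_eChi, map_smul, hχσ]) (by
      rw [ups_equiv ι (AlgEquiv.restrictNormalHom Hf d) δ' (fun x => by
        apply Subtype.ext
        rw [cδ', hι, hι, AlgEquiv.restrictNormalHom_apply]),
        Pool.Agent.Helper50.RS.eig_eChi, map_smul, hχδ, hζχ]) (by
      intro τ' hτ'
      rw [log_ups]
      apply hx
      obtain ⟨σ₁, hσ₁⟩ := exists_lift_embedding ιp (τ'.comp ι)
      obtain ⟨σ₀, g1, g2⟩ := hτ'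
      refine ⟨σ₁, ?_, ?_⟩
      · have g3 : σ₁.comp (algebraMap K Hf) = σ₀ := by
          apply Pool.Agent.Helper50.RS.comp_inj ιp
          show ιp.comp (σ₁.comp (algebraMap K _)) = ιp.comp σ₀
          rw [← g2, ← RingHom.comp_assoc, hσ₁]
          ext c
          exact congrArg τ' (Subtype.ext (hι _))
        rw [g3]
        exact g1
      · rw [hσ₁])
  have habove : (above (above (TSet ιinf ιp S) : Set (J →+* ℂ_[p])) : Set (M' →+* ℂ_[p])) =
      above (TSet ιinf ιp S) := by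
    ext τ
    show (τ.comp (algebraMap J M')).comp (algebraMap K J) ∈ TSet ιinf ιp S ↔
      τ.comp (algebraMap K M') ∈ TSet ιinf ιp S
    rfl
  rw [habove] at hx1
  obtain ⟨x₂, h3, h4⟩ := h2 p hp2 K J M M' (finrank K M) n i δ δJ σ' (TSet ιinf ιp S) ε a hM0 hcopM
    hδm him hε ha hδJM hσ'o hfix hδa hσ'ε hca x₁ c₁ hx1 hx2 hc1 (by
      apply (algebraMap M' H).injective
      rw [← hσM']
      exact hx3)
  obtain ⟨j, w, hw⟩ := hSel x₂ h3
  exact h4 j ⟨w, hw⟩

end Pool.Agent.Helper82.WY
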