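import Mathlib

/-!
# Project WY, packet O_CO: auxiliary lemmas (Teichmueller representatives, cyclic groups)
-/

set_option autoImplicit false

namespace Pool.Agent.Helper82.WY

open Polynomial

section teich

variable {p : ℕ} [Fact p.Prime]

theorem lt_one_iff_toZMod (x : ℤ_[p]) : ‖x‖ < 1 ↔ PadicInt.toZMod x = 0 := by
  rw [← PadicInt.mem_nonunits, ← IsLocalRing.mem_maximalIdeal, ← PadicInt.ker_toZMod,
    RingHom.mem_ker]

theorem one_of_toZMod {x : ℤ_[p]} (h : PadicInt.toZMod x ≠ 0) : ‖x‖ = 1 :=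
  le_antisymm (PadicInt.norm_le_one x) (not_lt.1 (mt (lt_one_iff_toZMod x).1 h))

theorem norm_emb (x : ℤ_[p]) : ‖algebraMap ℚ_[p] ℂ_[p] (x : ℚ_[p])‖ = ‖x‖ := by
  rw [norm_algebraMap']
  rfl

theorem norm_add_lt {a b : ℂ_[p]} (ha : ‖a‖ < 1) (hb : ‖b‖ < 1) : ‖a + b‖ < 1 :=
  lt_of_le_of_lt (IsUltrametricDist.norm_add_le_max a b) (max_lt ha hb)

/-- `‖u ^ k - v ^ k‖ ≤ ‖u - v‖` for `u`, `v` in the unit ball. -/
theorem norm_pow_sub_lt {u v : ℂ_[p]} (hu : ‖u‖ ≤ 1) (hv : ‖v‖ ≤ 1) (h : ‖u - v‖ < 1) (k : ℕ) :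
    ‖u ^ k - v ^ k‖ < 1 := by
  induction k with
  | zero => simp
  | succ k ih =>
    have e : u ^ (k + 1) - v ^ (k + 1) = u ^ k * (u - v) + v * (u ^ k - v ^ k) := by ring
    rw [e]
    apply norm_add_lt
    · rw [norm_mul, norm_pow]
      calc ‖u‖ ^ k * ‖u - v‖ ≤ 1 * ‖u - v‖ :=
            mul_le_mul_of_nonneg_right (pow_le_one₀ (norm_nonneg _) hu) (norm_nonneg _)
        _ < 1 := by rw [one_mul]; exact h
    · rw [norm_mul]
      calc ‖v‖ * ‖u ^ k - v ^ k‖ ≤ 1 * ‖u ^ k - v ^ k‖ :=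
            mul_le_mul_of_nonneg_right hv (norm_nonneg _)
        _ < 1 := by rw [one_mul]; exact ih

/-- two congruent `m`-th roots of unity are equal -/
theorem eq_of_congr {m : ℕ} (hm : m.Coprime p) {u v : ℂ_[p]} (hu : u ^ m = 1) (hv : v ^ m = 1)
    (hu1 : ‖u‖ = 1) (hv1 : ‖v‖ = 1) (h : ‖u - v‖ < 1) : u = v := by
  by_contra hne
  have h0 : (∑ j ∈ Finset.range m, u ^ j * v ^ (m - 1 - j)) * (u - v) = 0 := by
    rw [(Commute.all u v).geom_sum₂_mul, hu, hv, sub_self]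
  have h1 : ∑ j ∈ Finset.range m, u ^ j * v ^ (m - 1 - j) = 0 :=
    (mul_eq_zero.1 h0).resolve_right (sub_ne_zero.2 hne)
  have h2 : ‖(m : ℂ_[p]) * v ^ (m - 1)‖ = 1 := by
    rw [norm_mul, norm_pow, hv1, one_pow, mul_one]
    have e1 : ((m : ℕ) : ℂ_[p]) = algebraMap ℚ_[p] ℂ_[p] ((m : ℤ_[p]) : ℚ_[p]) := by
      simp
    rw [e1, norm_emb, PadicInt.norm_natCast_eq_one_iff]
    exact hm.symm
  have h3 : (m : ℂ_[p]) * v ^ (m - 1) =
      ∑ j ∈ Finset.range m, (v ^ j - u ^ j) * v ^ (m - 1 - j) := by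
    simp only [sub_mul, Finset.sum_sub_distrib, h1, sub_zero]
    rw [Finset.sum_congr rfl (g := fun _ => v ^ (m - 1)), Finset.sum_const, Finset.card_range,
      nsmul_eq_mul]
    intro j hj
    rw [← pow_add]
    congr 1
    have := Finset.mem_range.1 hj
    omega
  have h4 : ‖∑ j ∈ Finset.range m, (v ^ j - u ^ j) * v ^ (m - 1 - j)‖ < 1 := by
    refine Finset.sum_induction _ (fun x => ‖x‖ < 1) (fun a b ha hb => norm_add_lt ha hb)
      (by simp) fun j _ => ?_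
    rw [norm_mul, norm_pow, hv1, one_pow, mul_one]
    exact norm_pow_sub_lt hv1.le hu1.le (by rw [norm_sub_rev]; exact h) j
  rw [← h3, h2] at h4
  exact lt_irrefl _ h4

/-- the Teichmueller representative -/
theorem teich {m : ℕ} (hm0 : 0 < m) (hm : m.Coprime p) {u : ℂ_[p]} (hu : u ^ m = 1) {i : ℕ}
    (hi : ‖u - i‖ < 1) : (i : ZMod p) ^ m = 1 ∧ ∃ ζ : ℤ_[p], ζ ^ m = 1 ∧
      PadicInt.toZMod ζ = (i : ZMod p) ∧ algebraMap ℚ_[p] ℂ_[p] (ζ : ℚ_[p]) = u := by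
  have hp : p.Prime := Fact.out
  have hi' : ((i : ℕ) : ℂ_[p]) = algebraMap ℚ_[p] ℂ_[p] ((i : ℤ_[p]) : ℚ_[p]) := by simp
  have hu1 : ‖u‖ = 1 := by
    have e1 : ‖u‖ ^ m = 1 := by rw [← norm_pow, hu, norm_one]
    exact (pow_eq_one_iff_of_nonneg (norm_nonneg _) hm0.ne').1 e1
  have hi1 : ‖((i : ℕ) : ℂ_[p])‖ ≤ 1 := by rw [hi', norm_emb]; exact PadicInt.norm_le_one _
  have h1 : ‖((i : ℕ) : ℤ_[p]) ^ m - 1‖ < 1 := by
    have e1 := norm_pow_sub_lt hu1.le hi1 hi m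
    rw [hu, norm_sub_rev] at e1
    rw [← norm_emb]
    simpa using e1
  have h2 : (i : ZMod p) ^ m = 1 := by
    have e1 := (lt_one_iff_toZMod _).1 h1
    rw [map_sub, map_pow, map_one, map_natCast, sub_eq_zero] at e1
    exact e1
  refine ⟨h2, ?_⟩
  have hi0 : (i : ZMod p) ≠ 0 := by
    intro h
    rw [h, zero_pow hm0.ne'] at h2
    exact zero_ne_one h2
  have hm0' : (m : ZMod p) ≠ 0 := by
    intro h
    rw [ZMod.natCast_eq_zero_iff] at h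
    exact hp.one_lt.ne' (Nat.dvd_one.1 (by
      rw [← hm]
      exact Nat.dvd_gcd h (dvd_refl p)))
  let Q : ℤ_[p][X] := X ^ m - 1
  have hQ1 : Q.aeval ((i : ℕ) : ℤ_[p]) = ((i : ℕ) : ℤ_[p]) ^ m - 1 := by simp [Q]
  have hQ2 : Q.derivative.aeval ((i : ℕ) : ℤ_[p]) = (m : ℤ_[p]) * ((i : ℕ) : ℤ_[p]) ^ (m - 1) := by
    simp [Q, derivative_X_pow]
  have hQ3 : ‖Q.derivative.aeval ((i : ℕ) : ℤ_[p])‖ = 1 := by
    rw [hQ2]
    apply one_of_toZMod
    rw [map_mul, map_pow, map_natCast, map_natCast]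
    exact mul_ne_zero hm0' (pow_ne_zero _ hi0)
  obtain ⟨z, hz, hz2, -⟩ := hensels_lemma (F := Q) (a := ((i : ℕ) : ℤ_[p])) (by
    rw [hQ3, one_pow, hQ1]
    exact h1)
  have hzm : z ^ m = 1 := by
    have e1 : z ^ m - 1 = 0 := by simpa [Q] using hz
    exact sub_eq_zero.1 e1
  rw [hQ3] at hz2
  refine ⟨z, hzm, ?_, ?_⟩
  · have e1 := (lt_one_iff_toZMod _).1 hz2
    rw [map_sub, map_natCast, sub_eq_zero] at e1
    exact e1
  · have e0 : (algebraMap ℚ_[p] ℂ_[p] (z : ℚ_[p])) ^ m = 1 := by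
      rw [← map_pow, ← PadicInt.coe_pow, hzm, PadicInt.coe_one, map_one]
    refine eq_of_congr hm e0 hu ?_ hu1 ?_
    · have e1 : ‖algebraMap ℚ_[p] ℂ_[p] (z : ℚ_[p])‖ ^ m = 1 := by rw [← norm_pow, e0, norm_one]
      exact (pow_eq_one_iff_of_nonneg (norm_nonneg _) hm0.ne').1 e1
    · have e1 : algebraMap ℚ_[p] ℂ_[p] (z : ℚ_[p]) - u =
          algebraMap ℚ_[p] ℂ_[p] ((z - ((i : ℕ) : ℤ_[p]) : ℤ_[p]) : ℚ_[p]) + (((i : ℕ) : ℂ_[p]) - u) := by
        rw [PadicInt.coe_sub, map_sub, ← hi']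
        ring
      rw [e1]
      apply norm_add_lt
      · rw [norm_emb]
        exact hz2
      · rw [norm_sub_rev]
        exact hi

end teich

/-- in a cyclic group of order `p ^ (n+1)`, an element of order `p` is `σ ^ (p ^ n)` for a generator
`σ` -/
theorem cyc {G : Type*} [Group G] [IsCyclic G] {p n : ℕ} (hp : p.Prime)
    (hG : Nat.card G = p ^ (n + 1)) {g : G} (hg : g ^ p = 1) (hg1 : g ≠ 1) :
    ∃ σ : G, σ ^ p ^ n = g ∧ orderOf σ = p ^ (n + 1) := by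
  have hfin : Finite G := Nat.finite_of_card_ne_zero (by rw [hG]; exact (pow_pos hp.pos _).ne')
  obtain ⟨g₀, hg₀⟩ := IsCyclic.exists_monoid_generator (α := G)
  obtain ⟨k, hk⟩ := hg₀ g
  have hk' : g₀ ^ k = g := hk
  have ho : orderOf g₀ = p ^ (n + 1) := by
    rw [← hG]
    apply orderOf_eq_card_of_forall_mem_powers
    exact hg₀
  have h1 : p ^ (n + 1) ∣ k * p := by
    rw [← ho]
    apply orderOf_dvd_of_pow_eq_one
    rw [pow_mul, hk', hg]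
  have h2 : p ^ n ∣ k := by
    rw [pow_succ] at h1
    exact Nat.dvd_of_mul_dvd_mul_right hp.pos h1
  obtain ⟨l, hl⟩ := h2
  have h3 : ¬ p ∣ l := by
    rintro ⟨r, hr⟩
    apply hg1
    rw [← hk', hl, hr, ← mul_assoc, ← pow_succ, ← ho, pow_mul, pow_orderOf_eq_one, one_pow]
  refine ⟨g₀ ^ l, ?_, ?_⟩
  · rw [← pow_mul, mul_comm, ← hl]
    exact hk'
  · rw [Nat.Coprime.orderOf_pow, ho]
    rw [ho]
    apply Nat.Coprime.pow_left
    exact (Nat.Prime.coprime_iff_not_dvd hp).2 h3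

end Pool.Agent.Helper82.WY
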