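import Pool.Agent.Helper38.WY.Goals6
import Pool.Agent.Helper82.WY.OCO0

/-!
# Project WY, packet O_CO: auxiliary lemmas (Kummer theory)
-/

set_option autoImplicit false

namespace Pool.Agent.Helper82.WY

open Pool.Agent.Helper51.RP

/-- the exponent in `OmType` may be changed modulo `p` -/
theorem om_exp {p : ℕ} (hp : p.Prime) {F : Type} [Field F] {ε a : F} (hε : IsPrimitiveRoot ε p)
    (ha : a ≠ 0) {τ : F →+* F} {i : ℕ} (hi : τ ε = ε ^ i)
    (h : ∃ (n : ℕ) (c : F), τ ε = ε ^ n ∧ τ a = a ^ n * c ^ p) : ∃ d : F, τ a = a ^ i * d ^ p := by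
  obtain ⟨n, c, h1, h2⟩ := h
  have h3 : ε ^ (n : ℤ) = ε ^ (i : ℤ) := by
    rw [zpow_natCast, zpow_natCast, ← h1, hi]
  have hε0 : ε ≠ 0 := hε.ne_zero hp.ne_zero
  have h4 : ε ^ ((n : ℤ) - i) = 1 := by
    rw [zpow_sub₀ hε0, h3, div_self (zpow_ne_zero _ hε0)]
  obtain ⟨q, hq⟩ := (hε.zpow_eq_one_iff_dvd _).1 h4
  refine ⟨a ^ q * c, ?_⟩
  rw [h2, mul_pow, ← mul_assoc]
  congr 1
  rw [← zpow_natCast a n, ← zpow_natCast a i, ← zpow_natCast (a ^ q) p, ← zpow_mul,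
    ← zpow_add₀ ha]
  congr 1
  linarith [mul_comm q (p : ℤ)]

/-- the powers of an automorphism on `s` -/
theorem pow_s {K Ω : Type} [Field K] [Field Ω] [Algebra K Ω] {g : Ω ≃ₐ[K] Ω} {ε s c : Ω} {l : ℕ}
    (hε : g ε = ε) (h : g s = ε ^ l * (s * c)) (k : ℕ) :
    (g ^ k) s = ε ^ (l * k) * (s * ∏ j ∈ Finset.range k, (g ^ j) c) := by
  have hεk : ∀ k : ℕ, (g ^ k) ε = ε := by
    intro k
    induction k with
    | zero => rfl
    | succ k ih => rw [pow_succ, AlgEquiv.mul_apply, hε, ih]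
  induction k with
  | zero => simp
  | succ k ih =>
    rw [pow_succ, AlgEquiv.mul_apply, h, map_mul, map_mul, map_pow, hεk, ih,
      Finset.prod_range_succ, Nat.mul_succ, pow_add]
    ring

end Pool.Agent.Helper82.WY
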